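import Pool.Agent.H43.CB2.WlPad

/-!
# Isomorphism of contact graphs of balls with small ratio of the radii
-/

set_option autoImplicit false

namespace Pool.Agent.NPC.CB43

open Pool.Agent.H43.CB Pool.Agent.NPC.R671 Pool.Agent.NPC.UB129
open Pool.Agent.W185.SRG (WLEquivalent)

universe u

/-- In every real normed space of dimension at least three, the graph is a contact graph of balls
with radii between `1` and `n ^ (1 / q)`, where `n` is the number of its vertices. -/
def TameContactGraph (q n : ℕ) (G : SimpleGraph (Fin n)) : Prop :=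
  ∀ (E : Type u) [NormedAddCommGroup E] [NormedSpace ℝ E], 3 ≤ Module.rank ℝ E →
    ContactGraph E ((n : ℝ) ^ ((q : ℝ)⁻¹)) G

theorem tame_WQ {q : ℕ} (hq : 1 ≤ q) (n : ℕ) (G : SimpleGraph (Fin n)) :
    TameContactGraph.{u} q (size n ^ q) (WQ q n G) := by
  intro E _ _ hE
  have : Nontrivial E := by
    rw [← rank_pos_iff_nontrivial (R := ℝ)]
    exact lt_of_lt_of_le (by norm_num) hE
  have h1 : (((size n ^ q : ℕ) : ℝ)) ^ ((q : ℝ)⁻¹) = (size n : ℝ) := by
    rw [Nat.cast_pow]
    exact Real.pow_rpow_inv_natCast (Nat.cast_nonneg _) (by omega)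
  rw [h1]
  rcases Nat.eq_zero_or_pos (size n) with h0 | hpos
  · have he : IsEmpty (Fin (size n ^ q)) := by
      rw [h0, Nat.zero_pow hq]
      infer_instance
    exact ⟨fun v => he.elim v, fun v => he.elim v, fun v => he.elim v, fun v => he.elim v,
      fun v => he.elim v⟩
  · refine ContactGraph.pad ?_ ?_ _
    · exact universal_WW n G E hE
    · exact_mod_cast hpos

/-- The pair of padded webs of a string: invalid strings are mapped to a fixed pair. -/
def gmapq (q : ℕ) (x : List Bool) : Mat × Mat :=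
  (unbits (Mat × Mat) x).elim (redq q [], redq q [[false]]) fun p =>
    bif valid p.1 && valid p.2 then (redq q p.1, redq q p.2) else (redq q [], redq q [[false]])

theorem poly_gmapq (q : ℕ) : Poly (gmapq q) := by
  unfold gmapq
  refine Poly.optElim (h := fun _ (p : Mat × Mat) => bif valid p.1 && valid p.2 then
    (redq q p.1, redq q p.2) else (redq q [], redq q [[false]])) poly_unbits (Poly.const _) ?_
  refine Poly.cond ?_ ?_ (Poly.const _)
  · exact (poly_valid.comp (Poly.fst (Poly.snd Poly.id))).and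
      (poly_valid.comp (Poly.snd (Poly.snd Poly.id)))
  · exact Poly.pair ((poly_redq q).comp (Poly.fst (Poly.snd Poly.id)))
      ((poly_redq q).comp (Poly.snd (Poly.snd Poly.id)))

theorem gmapq_spec {q : ℕ} (hq : 1 ≤ q) (x : List Bool) :
    ∃ (n m : ℕ) (G : SimpleGraph (Fin n)) (H : SimpleGraph (Fin m)),
      gmapq q x = (adjMatrix (WQ q n G), adjMatrix (WQ q m H)) ∧
      (x ∈ GI ↔ Nonempty (WQ q n G ≃g WQ q m H)) := by
  have e0 : adjMatrix (⊥ : SimpleGraph (Fin 0)) = [] := by simp [adjMatrix]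
  have e1 : adjMatrix (⊥ : SimpleGraph (Fin 1)) = [[false]] := by simp [adjMatrix]
  have hbad : x ∉ GI → gmapq q x = (redq q [], redq q [[false]]) →
      ∃ (n m : ℕ) (G : SimpleGraph (Fin n)) (H : SimpleGraph (Fin m)),
      gmapq q x = (adjMatrix (WQ q n G), adjMatrix (WQ q m H)) ∧
      (x ∈ GI ↔ Nonempty (WQ q n G ≃g WQ q m H)) := by
    intro hx hg
    refine ⟨0, 1, ⊥, ⊥, ?_, ?_⟩
    · have h0 := redq_adjMatrix q (⊥ : SimpleGraph (Fin 0))
      have h1 := redq_adjMatrix q (⊥ : SimpleGraph (Fin 1))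
      rw [e0] at h0
      rw [e1] at h1
      rw [hg, h0, h1]
    · rw [WQ_iso_iff hq]
      refine iff_of_false hx ?_
      rintro ⟨φ⟩
      exact (φ.symm 0).elim0
  cases hu : unbits (Mat × Mat) x with
  | none =>
    refine hbad ?_ (by unfold gmapq; rw [hu]; rfl)
    rintro ⟨n, m, G, H, rfl, _⟩
    rw [unbits_bits] at hu
    exact absurd hu (by simp)
  | some p =>
    obtain ⟨M, M'⟩ := p
    have hx := bits_of_unbits hu
    by_cases hv : valid M = true ∧ valid M' = true
    · obtain ⟨n, G, hG⟩ := (valid_iff M).1 hv.1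
      obtain ⟨m, H, hH⟩ := (valid_iff M').1 hv.2
      refine ⟨n, m, G, H, ?_, ?_⟩
      · unfold gmapq
        rw [hu, Option.elim_some, hv.1, hv.2]
        simp only [Bool.and_self, cond_true]
        rw [← hG, ← hH, redq_adjMatrix, redq_adjMatrix]
      · rw [WQ_iso_iff hq, ← hx, ← hG, ← hH, mem_GI]
    · refine hbad ?_ ?_
      · rintro ⟨n, m, G, H, h, _⟩
        rw [← hx] at h
        have h1 := bits_injective h
        rw [Prod.mk.injEq] at h1
        exact hv ⟨(valid_iff M).2 ⟨n, G, h1.1.symm⟩, (valid_iff M').2 ⟨m, H, h1.2.symm⟩⟩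
      · unfold gmapq
        rw [hu, Option.elim_some]
        have : (valid M && valid M') = false := by
          rw [Bool.eq_false_iff]
          intro h
          rw [Bool.and_eq_true] at h
          exact hv h
        simp only [this, cond_false]

/-- Isomorphism of contact graphs of balls is as hard as graph isomorphism. -/
theorem mainq (q : ℕ) (hq : 1 ≤ q) :
    (∃ (N : ℕ → ℕ) (T : ∀ n, SimpleGraph (Fin n) → SimpleGraph (Fin (N n)))
        (F : List Bool → List Bool), PolyTime F ∧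
      (∀ n G, F (bits (adjMatrix G)) = bits (adjMatrix (T n G))) ∧
      (∀ n G, TameContactGraph.{u} q (N n) (T n G)) ∧
      ∀ n m G H, Nonempty (T n G ≃g T m H) ↔ Nonempty (G ≃g H)) ∧
    (∀ 𝒞 : ∀ n : ℕ, SimpleGraph (Fin n) → Prop,
      (∀ n G, TameContactGraph.{u} q n G → 𝒞 n G) →
      ((∃ A : List Bool → List Bool, PolyTime A ∧
          ∀ (n m : ℕ) (G : SimpleGraph (Fin n)) (H : SimpleGraph (Fin m)), 𝒞 n G → 𝒞 m H →
            (A (bits (adjMatrix G, adjMatrix H)) = [true] ↔ Nonempty (G ≃g H))) ↔ InP GI) ∧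
      ((∀ L : Set (List Bool), InNP L → ∃ g : List Bool → List Bool, PolyTime g ∧
          ∀ x, ∃ (n m : ℕ) (G : SimpleGraph (Fin n)) (H : SimpleGraph (Fin m)),
            𝒞 n G ∧ 𝒞 m H ∧ g x = bits (adjMatrix G, adjMatrix H) ∧
            (x ∈ L ↔ Nonempty (G ≃g H))) ↔ NPHard GI)) ∧
    ∃ c : ℕ, ∀ k : ℕ, 1 ≤ k → ∃ (N : ℕ) (P Q : SimpleGraph (Fin N)),
      TameContactGraph.{u} q N P ∧ TameContactGraph.{u} q N Q ∧ ¬ Nonempty (P ≃g Q) ∧
      WLEquivalent k P Q ∧ N ≤ c * (k * (Nat.log 2 k + 1)) ^ (10 * q) := by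
  refine ⟨⟨fun n => size n ^ q, WQ q, _, polyTime_opt (Poly.optMap (o := unbits Mat)
    (f := fun _ M => redq q M) poly_unbits ((poly_redq q).comp (Poly.snd Poly.id))), ?_,
    tame_WQ hq, fun n m G H => WQ_iso_iff hq G H⟩, ?_, ?_⟩
  · intro n G
    simp only [unbits_bits, Option.map_some, redq_adjMatrix]
  · intro 𝒞 h𝒞
    have hB : ∀ n (G : SimpleGraph (Fin n)), 𝒞 _ (WQ q n G) := fun n G =>
      h𝒞 _ _ (tame_WQ hq n G)
    refine ⟨?_, ?_⟩
    · constructor
      · rintro ⟨A, hA, h⟩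
        refine ⟨fun x => A (bits (gmapq q x)), H642R2.TMSim.polyTime_comp hA
          (polyTime_bits (poly_gmapq q)), fun x => ?_⟩
        obtain ⟨n, m, G, H, h1, h2⟩ := gmapq_spec hq x
        show x ∈ GI ↔ A (bits (gmapq q x)) = [true]
        rw [h2, h1, h _ _ _ _ (hB _ _) (hB _ _)]
      · rintro ⟨A, hA, h⟩
        exact ⟨A, hA, fun n m G H _ _ => by rw [← h, mem_GI]⟩
    · constructor
      · intro h L hL
        obtain ⟨g, hg, h1⟩ := h L hL
        refine ⟨g, hg, fun x => ?_⟩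
        obtain ⟨n, m, G, H, _, _, h2, h3⟩ := h1 x
        rw [h2, mem_GI, h3]
      · intro h L hL
        obtain ⟨f, hf, hfL⟩ := h L hL
        have hp : PolyTime (fun x => bits (gmapq q (f x))) :=
          H642R2.TMSim.polyTime_comp (g := fun x => bits (gmapq q x)) (f := f)
            (polyTime_bits (poly_gmapq q)) hf
        refine ⟨fun x => bits (gmapq q (f x)), hp, fun x => ?_⟩
        obtain ⟨n, m, G, H, h1, h2⟩ := gmapq_spec hq (f x)
        exact ⟨_, _, WQ q n G, WQ q m H, hB _ _, hB _ _, congrArg bits h1, (hfL x).trans h2⟩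
  · obtain ⟨c, hc⟩ := wq_lower q hq
    refine ⟨c, fun k hk => ?_⟩
    obtain ⟨n, G, H, h1, h2, h3⟩ := hc k hk
    exact ⟨_, WQ q n G, WQ q n H, tame_WQ hq n G, tame_WQ hq n H, h1, h2, h3⟩

end Pool.Agent.NPC.CB43
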