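import Pool.Agent.H43.CB.Geo

/-!
# Isolated vertices
-/

set_option autoImplicit false

namespace Pool.Agent.H43.CB

/-- The graph `G` on the first `m` of `N` vertices, with the other vertices isolated. -/
def padg {m : ℕ} (G : SimpleGraph (Fin m)) (N : ℕ) : SimpleGraph (Fin N) where
  Adj i j := ∃ (hi : (i : ℕ) < m) (hj : (j : ℕ) < m), G.Adj ⟨i, hi⟩ ⟨j, hj⟩
  symm := ⟨fun _ _ ⟨hi, hj, h⟩ => ⟨hj, hi, h.symm⟩⟩
  loopless := ⟨fun _ ⟨_, _, h⟩ => h.ne rfl⟩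

theorem padg_adj {m : ℕ} (G : SimpleGraph (Fin m)) (N : ℕ) (i j : Fin N) :
    (padg G N).Adj i j ↔ ∃ (hi : (i : ℕ) < m) (hj : (j : ℕ) < m), G.Adj ⟨i, hi⟩ ⟨j, hj⟩ := Iff.rfl

/-- Isolated vertices can be added to contact graphs. -/
theorem ContactGraph.pad {E : Type*} [NormedAddCommGroup E] [NormedSpace ℝ E] [Nontrivial E]
    {ρ : ℝ} {m : ℕ} {G : SimpleGraph (Fin m)} (h : ContactGraph E ρ G) (hρ : 1 ≤ ρ) (N : ℕ) :
    ContactGraph E ρ (padg G N) := by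
  obtain ⟨c, r, h1, h2, h3⟩ := h
  obtain ⟨e, he⟩ := exists_norm_eq E (zero_le_one (α := ℝ))
  set M : ℝ := ∑ v, (‖c v‖ + r v) + 2 with hM
  have hle : ∀ v, ‖c v‖ + r v + 2 ≤ M := by
    intro v
    have : ‖c v‖ + r v ≤ ∑ v, (‖c v‖ + r v) :=
      Finset.single_le_sum (f := fun v => ‖c v‖ + r v)
        (fun v _ => add_nonneg (norm_nonneg _) (by linarith [(h1 v).1])) (Finset.mem_univ v)
    linarith
  have hM0 : 0 ≤ M := by
    have : 0 ≤ ∑ v, (‖c v‖ + r v) :=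
      Finset.sum_nonneg fun v _ => add_nonneg (norm_nonneg _) (by linarith [(h1 v).1])
    linarith
  let c' : Fin N → E := fun i => if hi : (i : ℕ) < m then c ⟨i, hi⟩ else (M + 3 * (i : ℝ)) • e
  let r' : Fin N → ℝ := fun i => if hi : (i : ℕ) < m then r ⟨i, hi⟩ else 1
  have hnorm : ∀ j : Fin N, ‖(M + 3 * ((j : ℕ) : ℝ)) • e‖ = M + 3 * ((j : ℕ) : ℝ) := by
    intro j
    rw [norm_smul, he, mul_one, Real.norm_of_nonneg]
    positivity
  have key1 : ∀ i j : Fin N, (i : ℕ) < m → ¬ (j : ℕ) < m → r' i + r' j < dist (c' i) (c' j) := by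
    intro i j hi hj
    have e1 : c' i = c ⟨i, hi⟩ := dif_pos hi
    have e2 : c' j = (M + 3 * ((j : ℕ) : ℝ)) • e := dif_neg hj
    have e3 : r' i = r ⟨i, hi⟩ := dif_pos hi
    have e4 : r' j = 1 := dif_neg hj
    rw [e1, e2, e3, e4, dist_eq_norm]
    have h5 := norm_sub_norm_le ((M + 3 * ((j : ℕ) : ℝ)) • e) (c ⟨i, hi⟩)
    rw [hnorm, norm_sub_rev] at h5
    have h6 := hle ⟨i, hi⟩
    have h7 : (0 : ℝ) ≤ (j : ℕ) := Nat.cast_nonneg _
    linarith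
  have key2 : ∀ i j : Fin N, ¬ (i : ℕ) < m → ¬ (j : ℕ) < m → i ≠ j →
      r' i + r' j < dist (c' i) (c' j) := by
    intro i j hi hj hij
    have e1 : c' i = (M + 3 * ((i : ℕ) : ℝ)) • e := dif_neg hi
    have e2 : c' j = (M + 3 * ((j : ℕ) : ℝ)) • e := dif_neg hj
    have e3 : r' i = 1 := dif_neg hi
    have e4 : r' j = 1 := dif_neg hj
    rw [e1, e2, e3, e4, dist_eq_norm, ← sub_smul, norm_smul, he, mul_one, Real.norm_eq_abs]
    have h5 : (1 : ℝ) ≤ |((i : ℕ) : ℝ) - ((j : ℕ) : ℝ)| := by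
      have h6 : ((i : ℕ) : ℤ) - ((j : ℕ) : ℤ) ≠ 0 := by
        intro h7
        exact hij (Fin.ext (by omega))
      have h8 := Int.one_le_abs h6
      exact_mod_cast h8
    have h9 : M + 3 * ((i : ℕ) : ℝ) - (M + 3 * ((j : ℕ) : ℝ)) =
        3 * (((i : ℕ) : ℝ) - ((j : ℕ) : ℝ)) := by ring
    rw [h9, abs_mul, abs_of_pos (by norm_num : (0 : ℝ) < 3)]
    linarith
  have key : ∀ i j : Fin N, i ≠ j → ¬ ((i : ℕ) < m ∧ (j : ℕ) < m) →
      r' i + r' j < dist (c' i) (c' j) := by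
    intro i j hij hn
    by_cases hi : (i : ℕ) < m
    · exact key1 i j hi fun hj => hn ⟨hi, hj⟩
    · by_cases hj : (j : ℕ) < m
      · rw [dist_comm, add_comm]
        exact key1 j i hj hi
      · exact key2 i j hi hj hij
  refine ⟨c', r', fun v => ?_, fun u v huv => ?_, fun u v huv => ?_⟩
  · by_cases hv : (v : ℕ) < m
    · have e3 : r' v = r ⟨v, hv⟩ := dif_pos hv
      rw [e3]
      exact h1 _
    · have e3 : r' v = 1 := dif_neg hv
      rw [e3]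
      exact ⟨le_rfl, hρ⟩
  · by_cases hn : (u : ℕ) < m ∧ (v : ℕ) < m
    · have e1 : c' u = c ⟨u, hn.1⟩ := dif_pos hn.1
      have e2 : c' v = c ⟨v, hn.2⟩ := dif_pos hn.2
      have e3 : r' u = r ⟨u, hn.1⟩ := dif_pos hn.1
      have e4 : r' v = r ⟨v, hn.2⟩ := dif_pos hn.2
      rw [e1, e2, e3, e4]
      exact h2 _ _ fun h => huv (Fin.ext (Fin.mk.inj_iff.1 h))
    · exact Metric.ball_disjoint_ball (key u v huv hn).le
  · by_cases hn : (u : ℕ) < m ∧ (v : ℕ) < m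
    · have e1 : c' u = c ⟨u, hn.1⟩ := dif_pos hn.1
      have e2 : c' v = c ⟨v, hn.2⟩ := dif_pos hn.2
      have e3 : r' u = r ⟨u, hn.1⟩ := dif_pos hn.1
      have e4 : r' v = r ⟨v, hn.2⟩ := dif_pos hn.2
      rw [e1, e2, e3, e4, ← h3 _ _ fun h => huv (Fin.ext (Fin.mk.inj_iff.1 h)), padg_adj]
      exact ⟨fun ⟨_, _, h⟩ => h, fun h => ⟨hn.1, hn.2, h⟩⟩
    · refine iff_of_false (fun ⟨hu, hv, _⟩ => hn ⟨hu, hv⟩) ?_
      rw [Set.not_nonempty_iff_eq_empty, ← Set.disjoint_iff_inter_eq_empty]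
      exact Metric.closedBall_disjoint_closedBall (key u v huv hn)

/-- A graph without isolated vertices is determined by the padded graph. -/
theorem iso_of_padg {m m' N N' : ℕ} {G : SimpleGraph (Fin m)} {H : SimpleGraph (Fin m')}
    (hm : m ≤ N) (hm' : m' ≤ N') (hG : ∀ u, ∃ v, G.Adj u v) (hH : ∀ u, ∃ v, H.Adj u v)
    (φ : padg G N ≃g padg H N') : Nonempty (G ≃g H) := by
  have key1 : ∀ i : Fin N, (i : ℕ) < m → ((φ i : Fin N') : ℕ) < m' := by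
    intro i hi
    obtain ⟨v, hv⟩ := hG ⟨i, hi⟩
    have h1 : (padg G N).Adj i ⟨v, v.isLt.trans_le hm⟩ := ⟨hi, v.isLt, hv⟩
    obtain ⟨h2, _⟩ := φ.map_rel_iff.2 h1
    exact h2
  have key2 : ∀ i : Fin N', (i : ℕ) < m' → ((φ.symm i : Fin N) : ℕ) < m := by
    intro i hi
    obtain ⟨v, hv⟩ := hH ⟨i, hi⟩
    have h1 : (padg H N').Adj i ⟨v, v.isLt.trans_le hm'⟩ := ⟨hi, v.isLt, hv⟩
    obtain ⟨h2, _⟩ := φ.symm.map_rel_iff.2 h1
    exact h2
  refine ⟨⟨⟨fun u => ⟨φ ⟨u, u.isLt.trans_le hm⟩, key1 _ u.isLt⟩,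
    fun v => ⟨φ.symm ⟨v, v.isLt.trans_le hm'⟩, key2 _ v.isLt⟩, fun u => ?_, fun v => ?_⟩, ?_⟩⟩
  · apply Fin.ext
    show ((φ.symm (φ ⟨u, _⟩) : Fin N) : ℕ) = u
    rw [RelIso.symm_apply_apply]
  · apply Fin.ext
    show ((φ (φ.symm ⟨v, _⟩) : Fin N') : ℕ) = v
    rw [RelIso.apply_symm_apply]
  · intro u v
    have h1 := φ.map_rel_iff (a := ⟨u, u.isLt.trans_le hm⟩) (b := ⟨v, v.isLt.trans_le hm⟩)
    rw [padg_adj, padg_adj] at h1
    constructor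
    · intro h
      obtain ⟨_, _, h2⟩ := h1.1 ⟨key1 _ u.isLt, key1 _ v.isLt, h⟩
      exact h2
    · intro h
      obtain ⟨_, _, h2⟩ := h1.2 ⟨u.isLt, v.isLt, h⟩
      exact h2

/-- Padded graphs of isomorphic graphs are isomorphic. -/
theorem padg_iso {m N : ℕ} {G H : SimpleGraph (Fin m)} (hm : m ≤ N) (φ : G ≃g H) :
    Nonempty (padg G N ≃g padg H N) := by
  let f : Fin m ↪ Fin N := Fin.castLEEmb hm
  have hf : ∀ (i : Fin N) (hi : (i : ℕ) < m),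
      (Equiv.Perm.viaFintypeEmbedding (φ.toEquiv : Equiv.Perm (Fin m)) f) i = f (φ ⟨i, hi⟩) := by
    intro i hi
    have h1 : i = f ⟨i, hi⟩ := Fin.ext rfl
    conv_lhs => rw [h1]
    exact Equiv.Perm.viaFintypeEmbedding_apply_image φ.toEquiv f ⟨i, hi⟩
  have hf' : ∀ (i : Fin N), ¬ (i : ℕ) < m →
      (Equiv.Perm.viaFintypeEmbedding (φ.toEquiv : Equiv.Perm (Fin m)) f) i = i := by
    intro i hi
    refine Equiv.Perm.viaFintypeEmbedding_apply_notMem_range φ.toEquiv f ?_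
    rintro ⟨j, rfl⟩
    exact hi j.isLt
  have hlt : ∀ (i : Fin N), (((Equiv.Perm.viaFintypeEmbedding (φ.toEquiv : Equiv.Perm (Fin m)) f) i : Fin N) : ℕ)
      < m ↔ (i : ℕ) < m := by
    intro i
    by_cases hi : (i : ℕ) < m
    · rw [hf i hi]
      exact iff_of_true (φ ⟨i, hi⟩).isLt hi
    · rw [hf' i hi]
  refine ⟨⟨Equiv.Perm.viaFintypeEmbedding (φ.toEquiv : Equiv.Perm (Fin m)) f, ?_⟩⟩
  intro i j
  show (padg H N).Adj _ _ ↔ (padg G N).Adj i j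
  rw [padg_adj, padg_adj]
  constructor
  · rintro ⟨hi, hj, h⟩
    rw [hlt] at hi hj
    refine ⟨hi, hj, φ.map_rel_iff.1 ?_⟩
    convert h using 1
    · apply Fin.ext
      exact (congrArg Fin.val (hf i hi)).symm
    · apply Fin.ext
      exact (congrArg Fin.val (hf j hj)).symm
  · rintro ⟨hi, hj, h⟩
    refine ⟨(hlt i).2 hi, (hlt j).2 hj, ?_⟩
    have h1 := φ.map_rel_iff.2 h
    convert h1 using 1
    · have h5 := congrArg Fin.val (hf i hi)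
      exact Fin.ext h5
    · have h5 := congrArg Fin.val (hf j hj)
      exact Fin.ext h5

end Pool.Agent.H43.CB
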