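import Pool.Agent.H43.CB.Main
import Pool.Agent.H43.CB2.Pad

/-!
# The padded webs
-/

set_option autoImplicit false

namespace Pool.Agent.NPC.CB43

open Pool.Agent.H43.CB Pool.Agent.NPC.R671 Pool.Agent.NPC.UB129

universe u

/-- The padded web over a graph on `{0, ..., n - 1}`, as a graph on `{0, ..., size n ^ q - 1}`. -/
def WQ (q n : ℕ) (G : SimpleGraph (Fin n)) : SimpleGraph (Fin (size n ^ q)) :=
  padg (WW n G) (size n ^ q)

theorem le_size (n : ℕ) : n ≤ size n := Nat.le_add_right _ _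

theorem size_le_pow {q : ℕ} (hq : 1 ≤ q) (n : ℕ) : size n ≤ size n ^ q :=
  Nat.le_self_pow (by omega) _

theorem hgt_two (n : ℕ) : 2 ≤ hgt n := by
  unfold hgt
  have : 1 ≤ (2 * n + 4) ^ 8 := Nat.one_le_pow _ _ (by omega)
  omega

/-- Webs have no isolated vertices. -/
theorem web_nbr {K n : ℕ} (hK : 2 ≤ K) (G : SimpleGraph (Fin n)) (x : Vx K n) :
    ∃ y, (web K n G).Adj x y := by
  rcases x with u | ⟨⟨l, hl⟩, u, w⟩
  · exact ⟨.inr (⟨0, by omega⟩, u, ⟨0, by omega⟩), Or.inl ⟨rfl, rfl⟩⟩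
  · rcases Nat.eq_zero_or_pos l with rfl | h
    · exact ⟨.inl u, Or.inr ⟨rfl, rfl⟩⟩
    · refine ⟨.inr (⟨l - 1, by omega⟩, u, w), Or.inr (Or.inl ⟨rfl, ?_⟩)⟩
      show l = l - 1 + 1
      omega

theorem WW_nbr (n : ℕ) (G : SimpleGraph (Fin n)) (x : Fin (size n)) : ∃ y, (WW n G).Adj x y := by
  obtain ⟨y, hy⟩ := web_nbr (hgt_two n) G (WWiso n G x)
  refine ⟨(WWiso n G).symm y, ?_⟩
  rw [← (WWiso n G).map_rel_iff, RelIso.apply_symm_apply]
  exact hy

/-- The padded webs are isomorphic if and only if the graphs are. -/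
theorem WQ_iso_iff {q : ℕ} (hq : 1 ≤ q) {n m : ℕ} (G : SimpleGraph (Fin n))
    (H : SimpleGraph (Fin m)) : Nonempty (WQ q n G ≃g WQ q m H) ↔ Nonempty (G ≃g H) := by
  constructor
  · rintro ⟨φ⟩
    exact (WW_iso_iff G H).1 (iso_of_padg (size_le_pow hq n) (size_le_pow hq m) (WW_nbr n G)
      (WW_nbr m H) φ)
  · rintro ⟨φ⟩
    have h1 : n = m := by
      have := Fintype.card_congr φ.toEquiv
      simpa using this
    subst h1
    obtain ⟨ψ⟩ := (WW_iso_iff G H).2 ⟨φ⟩
    exact padg_iso (size_le_pow hq n) ψ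

/-- The adjacency matrix of the padded web. -/
def redq (q : ℕ) (M : Mat) : Mat :=
  (List.range (size M.length ^ q)).map fun s => (List.range (size M.length ^ q)).map fun t =>
    (decide (s < size M.length) && decide (t < size M.length)) &&
      adjB (hgt M.length) M.length M s t

theorem redq_adjMatrix (q : ℕ) {n : ℕ} (G : SimpleGraph (Fin n)) :
    redq q (adjMatrix G) = adjMatrix (WQ q n G) := by
  classical
  unfold redq
  rw [length_adjMatrix]
  conv_rhs => unfold adjMatrix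
  refine List.ext_getElem (by simp) fun i h1 h2 => ?_
  rw [List.getElem_map, List.getElem_ofFn, List.getElem_range]
  refine List.ext_getElem (by simp) fun j h3 h4 => ?_
  rw [List.getElem_map, List.getElem_ofFn, List.getElem_range]
  refine Bool.eq_iff_iff.2 (Iff.trans ?_ (@decide_eq_true_iff _ (_)).symm)
  rw [Bool.and_eq_true, Bool.and_eq_true, decide_eq_true_eq, decide_eq_true_eq]
  constructor
  · rintro ⟨⟨hi, hj⟩, h⟩
    exact ⟨hi, hj, (adjB_iff (K := hgt n) G ⟨i, hi⟩ ⟨j, hj⟩).1 h⟩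
  · rintro ⟨hi, hj, h⟩
    exact ⟨⟨hi, hj⟩, (adjB_iff (K := hgt n) G ⟨i, hi⟩ ⟨j, hj⟩).2 h⟩

theorem upoly_sizeq (q : ℕ) : UPoly (fun M : Mat => size M.length ^ q) := by
  have h2 := UPoly.eval upoly_size (Polynomial.X ^ q)
  simpa using h2

theorem poly_redq (q : ℕ) : Poly (redq q) := by
  unfold redq
  have h1 : Poly (fun M : Mat => List.range (size M.length ^ q)) := (upoly_sizeq q).range
  have h2 : Poly (fun M : Mat => hgt M.length) := upoly_hgt.toPoly
  have h3 : Poly (fun M : Mat => M.length) := upoly_len.toPoly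
  have h4 : Poly (fun M : Mat => size M.length) := upoly_size.toPoly
  refine Poly.map (F := fun (M : Mat) s => (List.range (size M.length ^ q)).map fun t =>
    (decide (s < size M.length) && decide (t < size M.length)) &&
      adjB (hgt M.length) M.length M s t) h1 ?_
  refine Poly.map (l := fun p : Mat × ℕ => List.range (size p.1.length ^ q))
    (F := fun (p : Mat × ℕ) t => (decide (p.2 < size p.1.length) && decide (t < size p.1.length)) &&
      adjB (hgt p.1.length) p.1.length p.1 p.2 t)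
    (h1.comp (Poly.fst Poly.id)) ?_
  have hs : Poly (fun p : (Mat × ℕ) × ℕ => size p.1.1.length) :=
    h4.comp (f := fun p : (Mat × ℕ) × ℕ => p.1.1) (Poly.fst (Poly.fst Poly.id))
  refine Poly.and (Poly.and ?_ ?_) ?_
  · exact Poly.decide_lt (Poly.snd (Poly.fst Poly.id)) hs
  · exact Poly.decide_lt (Poly.snd Poly.id) hs
  · exact poly_adjB.comp (f := fun p : (Mat × ℕ) × ℕ =>
      ((hgt p.1.1.length, p.1.1.length, p.1.1), p.1.2, p.2))
      (Poly.pair (Poly.pair (h2.comp (Poly.fst (Poly.fst Poly.id)))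
        (Poly.pair (h3.comp (Poly.fst (Poly.fst Poly.id))) (Poly.fst (Poly.fst Poly.id))))
        (Poly.pair (Poly.snd (Poly.fst Poly.id)) (Poly.snd Poly.id)))

end Pool.Agent.NPC.CB43
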