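import Pool.Agent.H43.CB.Graph
import Pool.Agent.H43.CB2.Pad
import Pool.Graph.R_pool_sql_team_seeded_620a6dc7.H129.UB.WlMain

/-!
# The Weisfeiler-Leman method on webs

If the graphs `G` and `H` are indistinguishable in the game with `2 (k + 1)` pebbles, then the
webs over `G` and `H` are indistinguishable in the game with `k + 1` pebbles.
-/

set_option autoImplicit false
set_option linter.unusedSectionVars false

namespace Pool.Agent.H43.CB

open Pool.Agent.W185.SRG Pool.Agent.Y598.Circ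

/-! ### Transfer of games -/

section transfer

variable {V W V' W' : Type} [Fintype V] [Fintype W] [Fintype V'] [Fintype W']
  {G : SimpleGraph V} {H : SimpleGraph W} {G' : SimpleGraph V'} {H' : SimpleGraph W'}

/-- Games can be transferred along isomorphisms. -/
def gameIso {k : ℕ} (A : Game k G H) (φ : G' ≃g G) (ψ : H' ≃g H) : Game k G' H' where
  Good n S S' := A.Good n (φ ∘ S) (ψ ∘ S')
  zero _ _ := A.zero _ _
  ext n hn S S' h := by
    obtain ⟨β, hβ⟩ := A.ext n hn _ _ h
    refine ⟨(φ.toEquiv.trans β).trans ψ.toEquiv.symm, fun x => ?_⟩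
    have h1 : φ ∘ (Fin.snoc (α := fun _ => V') S x : Fin (n + 1) → V') =
        Fin.snoc (α := fun _ => V) (φ ∘ S) (φ x) := Fin.comp_snoc _ _ _
    have h2 : ψ ∘ (Fin.snoc (α := fun _ => W') S' (((φ.toEquiv.trans β).trans ψ.toEquiv.symm) x) :
        Fin (n + 1) → W') = Fin.snoc (α := fun _ => W) (ψ ∘ S') (β (φ x)) := by
      rw [Fin.comp_snoc]
      congr 1
      exact ψ.toEquiv.apply_symm_apply _
    rw [h1, h2]
    exact hβ (φ x)
  restr n m σ S S' h := A.restr n m σ _ _ h
  iso S S' h := by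
    have h1 := A.iso _ _ h
    refine Prod.ext ?_ ?_
    · funext i j
      have h2 := congrFun (congrFun (congrArg Prod.fst h1) i) j
      have h3 : (φ (S i) = φ (S j)) = (ψ (S' i) = ψ (S' j)) := h2
      show (S i = S j) = (S' i = S' j)
      rw [φ.injective.eq_iff, ψ.injective.eq_iff] at h3
      exact h3
    · funext i j
      have h2 := congrFun (congrFun (congrArg Prod.snd h1) i) j
      have h3 : G.Adj (φ (S i)) (φ (S j)) = H.Adj (ψ (S' i)) (ψ (S' j)) := h2
      show G'.Adj (S i) (S j) = H'.Adj (S' i) (S' j)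
      rw [φ.map_rel_iff, ψ.map_rel_iff] at h3
      exact h3

end transfer

/-! ### Webs -/

section web

variable {n : ℕ} {G H : SimpleGraph (Fin n)}

/-- The kinds of vertices of a web. -/
abbrev Kd (K : ℕ) : Type := Unit ⊕ (Fin K ⊕ (Fin K × Fin 2))

/-- The vertex of a kind with given knots. -/
def mk {K n : ℕ} : Kd K → Fin n → Fin n → Vx K n
  | .inl _, x, _ => .inl x
  | .inr (.inl l), x, y => .inr (l, x, finSumFinEquiv (.inl y))
  | .inr (.inr (l, j)), x, _ => .inr (l, x, finSumFinEquiv (.inr j))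

theorem val_l {n : ℕ} (y : Fin n) : ((finSumFinEquiv (.inl y : Fin n ⊕ Fin 2) : Fin (n + 2)) : ℕ) = y :=
  rfl

theorem val_r {n : ℕ} (j : Fin 2) :
    ((finSumFinEquiv (.inr j : Fin n ⊕ Fin 2) : Fin (n + 2)) : ℕ) = n + j := rfl

theorem mk_inj_congr {K : ℕ} (d d' : Kd K) {x y x' y' z w z' w' : Fin n}
    (h1 : x = x' ↔ z = z') (h2 : y = y' ↔ w = w') :
    mk d x y = mk d' x' y' ↔ mk d z w = mk d' z' w' := by
  have e1 : ∀ (a : Fin n) (j : Fin 2), ¬ (Fin.castAdd 2 a = Fin.natAdd n j) := fun a j h => by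
    have h3 : (a : ℕ) = n + j := congrArg Fin.val h
    have := a.isLt
    omega
  have e2 : ∀ (a : Fin n) (j : Fin 2), ¬ (Fin.natAdd n j = Fin.castAdd 2 a) := fun a j h =>
    e1 a j h.symm
  rcases d with _ | l | ⟨l, j⟩ <;> rcases d' with _ | l' | ⟨l', j'⟩ <;>
    simp [mk, h1, h2, e1, e2]

theorem stp_congr {K : ℕ} (d d' : Kd K) {x y x' y' z w z' w' : Fin n}
    (h1 : x = x' ↔ z = z') (h2 : y = y' ↔ w = w') (h3 : x = y' ↔ z = w') (h4 : y = x' ↔ w = z')
    (h5 : G.Adj x x' ↔ H.Adj z z') :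
    stp K n G (mk d x y) (mk d' x' y') ↔ stp K n H (mk d z w) (mk d' z' w') := by
  have e1 : ∀ a b : Fin n, ((a : ℕ) = b ↔ a = b) := fun a b => Fin.ext_iff.symm
  have e2 : ∀ (a : Fin n) (j : Fin 2), (n + (j : ℕ) = a ↔ False) := fun a j =>
    iff_of_false (by have := a.isLt; omega) id
  have h3' : y' = x ↔ w' = z := by rw [eq_comm, h3, eq_comm]
  rcases d with _ | l | ⟨l, j⟩ <;> rcases d' with _ | l' | ⟨l', j'⟩ <;>
    simp only [mk, stp, val_l, val_r, e1, e2, Prod.mk.injEq, EmbeddingLike.apply_eq_iff_eq,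
      Sum.inl.injEq, Sum.inr.injEq, h1, h2, h3', h4, h5, reduceCtorEq, and_false, false_and]

theorem adj_congr {K : ℕ} (d d' : Kd K) {x y x' y' z w z' w' : Fin n}
    (h1 : x = x' ↔ z = z') (h2 : y = y' ↔ w = w') (h3 : x = y' ↔ z = w') (h4 : y = x' ↔ w = z')
    (h5 : G.Adj x x' ↔ H.Adj z z') :
    (web K n G).Adj (mk d x y) (mk d' x' y') ↔ (web K n H).Adj (mk d z w) (mk d' z' w') := by
  rw [web_adj, web_adj, stp_congr d d' h1 h2 h3 h4 h5,
    stp_congr d' d (G := G) (H := H) (x := x') (y := y') (x' := x) (y' := y) (z := z') (w := w')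
      (z' := z) (w' := w) (by rw [eq_comm, h1, eq_comm]) (by rw [eq_comm, h2, eq_comm])
      (by rw [eq_comm, h4, eq_comm]) (by rw [eq_comm, h3, eq_comm])
      (by rw [G.adj_comm, h5, H.adj_comm])]

/-- The position of the base game below a position of the game on webs. -/
def Below {k₀ : ℕ} (A : Game k₀ G H) (K t : ℕ) (S S' : Fin t → Vx K n) : Prop :=
  ∃ (m : ℕ) (T T' : Fin m → Fin n) (a b : Fin t → Fin m) (d : Fin t → Kd K), m ≤ 2 * t ∧
    A.Good m T T' ∧ ∀ i, S i = mk (d i) (T (a i)) (T (b i)) ∧ S' i = mk (d i) (T' (a i)) (T' (b i))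

/-- The bijection of the columns. -/
def colE {n : ℕ} (e : Fin n ≃ Fin n) : Fin (n + 2) ≃ Fin (n + 2) :=
  (finSumFinEquiv (m := n) (n := 2)).symm.trans
    ((Equiv.sumCongr e (Equiv.refl _)).trans finSumFinEquiv)

/-- The game on webs. -/
def webGame {k k₀ : ℕ} (hk : 2 * k + 1 ≤ k₀) (A : Game k₀ G H) (K : ℕ) :
    Game k (web K n G) (web K n H) where
  Good t S S' := Below A K t S S'
  zero S S' := ⟨0, Fin.elim0, Fin.elim0, Fin.elim0, Fin.elim0, Fin.elim0, le_rfl, A.zero _ _,
    fun i => i.elim0⟩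
  ext t ht S S' := by
    rintro ⟨m, T, T', a, b, d, hm, hgood, hS⟩
    obtain ⟨φ, hφ⟩ := A.ext m (by omega) T T' hgood
    choose φ' hφ' using fun x => A.ext (m + 1) (by omega) _ _ (hφ x)
    refine ⟨Equiv.sumCongr φ (Equiv.prodCongr (Equiv.refl _)
      (Equiv.prodShear φ fun x => colE (φ' x))), ?_⟩
    -- one more knot
    have one : ∀ (δ : Kd K) (x : Fin n) (X X' : Vx K n), X = mk δ x x → X' = mk δ (φ x) (φ x) →
        Below A K (t + 1) (Fin.snoc (α := fun _ => Vx K n) S X)
          (Fin.snoc (α := fun _ => Vx K n) S' X') := by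
      intro δ x X X' hX hX'
      refine ⟨m + 1, _, _,
        Fin.snoc (α := fun _ => Fin (m + 1)) (fun i => (a i).castSucc) (Fin.last m),
        Fin.snoc (α := fun _ => Fin (m + 1)) (fun i => (b i).castSucc) (Fin.last m),
        Fin.snoc (α := fun _ => Kd K) d δ, by omega, hφ x, ?_⟩
      intro i
      refine Fin.lastCases ?_ (fun i => ?_) i
      · simp only [Fin.snoc_last]
        exact ⟨hX, hX'⟩
      · simp only [Fin.snoc_castSucc]
        exact hS i
    rintro (x | ⟨l, x, c⟩)
    · exact one (.inl ()) x _ _ rfl rfl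
    · obtain ⟨s, rfl⟩ := (finSumFinEquiv (m := n) (n := 2)).surjective c
      have hc : colE (φ' x) (finSumFinEquiv s) =
          finSumFinEquiv (Equiv.sumCongr (φ' x) (Equiv.refl (Fin 2)) s) := by
        unfold colE
        rw [Equiv.trans_apply, Equiv.trans_apply, Equiv.symm_apply_apply]
      rcases s with y | j
      · refine ⟨m + 1 + 1, _, _,
          Fin.snoc (α := fun _ => Fin (m + 1 + 1)) (fun i => ((a i).castSucc).castSucc)
            (Fin.last m).castSucc,
          Fin.snoc (α := fun _ => Fin (m + 1 + 1)) (fun i => ((b i).castSucc).castSucc)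
            (Fin.last (m + 1)),
          Fin.snoc (α := fun _ => Kd K) d (.inr (.inl l)), by omega, hφ' x y, ?_⟩
        intro i
        refine Fin.lastCases ?_ (fun i => ?_) i
        · simp only [Fin.snoc_last, Fin.snoc_castSucc]
          refine ⟨rfl, ?_⟩
          show Sum.inr (l, φ x, colE (φ' x) (finSumFinEquiv (Sum.inl y))) = _
          rw [hc]
          rfl
        · simp only [Fin.snoc_castSucc]
          exact hS i
      · refine one (.inr (.inr (l, j))) x _ _ rfl ?_
        show Sum.inr (l, φ x, colE (φ' x) (finSumFinEquiv (Sum.inr j))) = _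
        rw [hc]
        rfl
  restr t t' σ S S' := by
    rintro ⟨m, T, T', a, b, d, hm, hgood, hS⟩
    refine ⟨t' * 2, _, _, fun i => finProdFinEquiv (i, 0), fun i => finProdFinEquiv (i, 1),
      d ∘ σ, by omega, A.restr m (t' * 2) (fun j => if (finProdFinEquiv.symm j).2 = 0 then
        a (σ (finProdFinEquiv.symm j).1) else b (σ (finProdFinEquiv.symm j).1)) T T' hgood, ?_⟩
    intro i
    simp only [Function.comp_apply, Equiv.symm_apply_apply, if_true]
    exact hS (σ i)
  iso S S' := by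
    rintro ⟨m, T, T', a, b, d, hm, hgood, hS⟩
    rcases Nat.eq_zero_or_pos k with h0 | hpos
    · subst h0
      exact Prod.ext (funext fun i => i.elim0) (funext fun i => i.elim0)
    have hmpos : 0 < m := (a ⟨0, hpos⟩).pos
    have hpat : ∀ i j : Fin m, (T i = T j ↔ T' i = T' j) ∧ (G.Adj (T i) (T j) ↔
        H.Adj (T' i) (T' j)) := by
      let σ : Fin k₀ → Fin m := fun j => if h : (j : ℕ) < m then ⟨j, h⟩ else ⟨0, hmpos⟩
      have h1 := A.iso _ _ (A.restr m k₀ σ T T' hgood)
      have h2 := (Prod.ext_iff.1 h1).1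
      have h3 := (Prod.ext_iff.1 h1).2
      intro i j
      have e1 : σ ⟨i, by omega⟩ = i := by simp [σ]
      have e2 : σ ⟨j, by omega⟩ = j := by simp [σ]
      have h4 := congrFun (congrFun h2 ⟨i, by omega⟩) ⟨j, by omega⟩
      have h5 := congrFun (congrFun h3 ⟨i, by omega⟩) ⟨j, by omega⟩
      simp only [isoType, Function.comp_apply, e1, e2, eq_iff_iff] at h4 h5
      exact ⟨h4, h5⟩
    refine Prod.ext ?_ ?_
    · funext i j
      show (S i = S j) = (S' i = S' j)
      rw [(hS i).1, (hS j).1, (hS i).2, (hS j).2]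
      exact propext (mk_inj_congr _ _ (hpat _ _).1 (hpat _ _).1)
    · funext i j
      show (web K n G).Adj (S i) (S j) = (web K n H).Adj (S' i) (S' j)
      rw [(hS i).1, (hS j).1, (hS i).2, (hS j).2]
      exact propext (adj_congr _ _ (hpat _ _).1 (hpat _ _).1 (hpat _ _).1 (hpat _ _).1 (hpat _ _).2)

end web

end Pool.Agent.H43.CB
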