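import Pool.Agent.H43.CB2.Wl
import Pool.Agent.H43.CB2.RedQ

/-!
# The Weisfeiler-Leman method on padded webs
-/

set_option autoImplicit false
set_option linter.unusedSectionVars false

namespace Pool.Agent.H43.CB

open Pool.Agent.W185.SRG Pool.Agent.Y598.Circ Pool.Agent.NPC.CB43

section pad

variable {m N k : ℕ} {G H : SimpleGraph (Fin m)}

/-- The position of the base game below a position of the game on padded graphs. -/
def PB (A : Game k G H) (hm : m ≤ N) (t : ℕ) (S S' : Fin t → Fin N) : Prop :=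
  ∃ (M : ℕ) (T T' : Fin M → Fin m) (a : Fin t → Option (Fin M)), M ≤ t ∧ A.Good M T T' ∧
    ∀ i, (∀ j, a i = some j → S i = Fin.castLE hm (T j) ∧ S' i = Fin.castLE hm (T' j)) ∧
      (a i = none → ¬ (S i : ℕ) < m ∧ S' i = S i)

/-- The permutation which extends a permutation of the first vertices. -/
def extE (hm : m ≤ N) (φ : Equiv.Perm (Fin m)) : Equiv.Perm (Fin N) :=
  Equiv.Perm.viaFintypeEmbedding φ (Fin.castLEEmb hm)

theorem extE_lt (hm : m ≤ N) (φ : Equiv.Perm (Fin m)) (x : Fin m) :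
    extE hm φ (Fin.castLE hm x) = Fin.castLE hm (φ x) :=
  Equiv.Perm.viaFintypeEmbedding_apply_image φ (Fin.castLEEmb hm) x

theorem extE_ge (hm : m ≤ N) (φ : Equiv.Perm (Fin m)) (x : Fin N) (hx : ¬ (x : ℕ) < m) :
    extE hm φ x = x := by
  refine Equiv.Perm.viaFintypeEmbedding_apply_notMem_range φ (Fin.castLEEmb hm) ?_
  rintro ⟨j, rfl⟩
  exact hx j.isLt

/-- The game on padded graphs. -/
def padGame (A : Game k G H) (hm : m ≤ N) : Game k (padg G N) (padg H N) where
  Good t S S' := PB A hm t S S'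
  zero S S' := ⟨0, Fin.elim0, Fin.elim0, Fin.elim0, le_rfl, A.zero _ _, fun i => i.elim0⟩
  ext t ht S S' := by
    rintro ⟨M, T, T', a, hM, hgood, hS⟩
    obtain ⟨φ, hφ⟩ := A.ext M (by omega) T T' hgood
    refine ⟨extE hm φ, fun x => ?_⟩
    by_cases hx : (x : ℕ) < m
    · obtain ⟨y, rfl⟩ : ∃ y : Fin m, x = Fin.castLE hm y := ⟨⟨x, hx⟩, rfl⟩
      refine ⟨M + 1, _, _, Fin.snoc (α := fun _ => Option (Fin (M + 1)))
        (fun i => (a i).map Fin.castSucc) (some (Fin.last M)), by omega, hφ y, fun i => ?_⟩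
      refine Fin.lastCases ?_ (fun i => ?_) i
      · simp only [Fin.snoc_last]
        refine ⟨?_, by simp⟩
        rintro j hj
        obtain rfl := Option.some_injective _ hj
        simp only [Fin.snoc_last]
        exact ⟨trivial, extE_lt hm φ y⟩
      · simp only [Fin.snoc_castSucc]
        refine ⟨fun j hj => ?_, fun h => (hS i).2 ?_⟩
        · rw [Option.map_eq_some_iff] at hj
          obtain ⟨j', hj', rfl⟩ := hj
          simp only [Fin.snoc_castSucc]
          exact (hS i).1 j' hj'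
        · simpa using h
    · refine ⟨M, T, T', Fin.snoc (α := fun _ => Option (Fin M)) a none, by omega, hgood,
        fun i => ?_⟩
      refine Fin.lastCases ?_ (fun i => ?_) i
      · simp only [Fin.snoc_last]
        exact ⟨by simp, fun _ => ⟨hx, extE_ge hm φ x hx⟩⟩
      · simp only [Fin.snoc_castSucc]
        exact hS i
  restr t t' σ S S' := by
    rintro ⟨M, T, T', a, hM, hgood, hS⟩
    by_cases hj : ∃ (i : Fin t') (j : Fin M), a (σ i) = some j
    · obtain ⟨i0, j0, h0⟩ := hj
      refine ⟨t', T ∘ fun i => (a (σ i)).getD j0, T' ∘ fun i => (a (σ i)).getD j0,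
        fun i => (a (σ i)).map fun _ => i, le_rfl, A.restr _ _ _ _ _ hgood, fun i => ?_⟩
      refine ⟨fun j hj => ?_, fun h => ?_⟩
      · rw [Option.map_eq_some_iff] at hj
        obtain ⟨j', hj', rfl⟩ := hj
        simp only [Function.comp_apply, hj', Option.getD_some]
        exact (hS (σ i)).1 j' hj'
      · exact (hS (σ i)).2 (by simpa using h)
    · push Not at hj
      refine ⟨0, Fin.elim0, Fin.elim0, fun _ => none, Nat.zero_le _, A.zero _ _, fun i => ?_⟩
      refine ⟨by simp, fun _ => (hS (σ i)).2 ?_⟩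
      rcases h : a (σ i) with _ | j
      · rfl
      · exact absurd h (hj i j)
  iso S S' := by
    rintro ⟨M, T, T', a, hM, hgood, hS⟩
    have hpat : ∀ i j : Fin M, (T i = T j ↔ T' i = T' j) ∧ (G.Adj (T i) (T j) ↔
        H.Adj (T' i) (T' j)) := by
      intro i j
      have hmpos : 0 < M := i.pos
      let σ : Fin k → Fin M := fun j => if h : (j : ℕ) < M then ⟨j, h⟩ else ⟨0, hmpos⟩
      have h1 := A.iso _ _ (A.restr M k σ T T' hgood)
      have h2 := (Prod.ext_iff.1 h1).1
      have h3 := (Prod.ext_iff.1 h1).2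
      have e1 : σ ⟨i, by omega⟩ = i := by simp [σ]
      have e2 : σ ⟨j, by omega⟩ = j := by simp [σ]
      have h4 := congrFun (congrFun h2 ⟨i, by omega⟩) ⟨j, by omega⟩
      have h5 := congrFun (congrFun h3 ⟨i, by omega⟩) ⟨j, by omega⟩
      simp only [isoType, Function.comp_apply, e1, e2] at h4 h5
      exact ⟨iff_of_eq h4, iff_of_eq h5⟩
    have hinj : Function.Injective (Fin.castLE hm) := Fin.castLE_injective hm
    refine Prod.ext ?_ ?_
    · funext i j
      refine propext ?_
      show S i = S j ↔ S' i = S' j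
      rcases hi : a i with _ | p <;> rcases hj : a j with _ | p'
      · rw [((hS i).2 hi).2, ((hS j).2 hj).2]
      · have h1 := (hS i).2 hi
        have h2 := (hS j).1 p' hj
        rw [h1.2, h2.1, h2.2]
        refine iff_of_false (fun h => h1.1 ?_) (fun h => h1.1 ?_)
        · rw [h]
          exact (T p').isLt
        · rw [h]
          exact (T' p').isLt
      · have h1 := (hS j).2 hj
        have h2 := (hS i).1 p hi
        rw [h1.2, h2.1, h2.2]
        refine iff_of_false (fun h => h1.1 ?_) (fun h => h1.1 ?_)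
        · rw [← h]
          exact (T p).isLt
        · rw [← h]
          exact (T' p).isLt
      · have h1 := (hS i).1 p hi
        have h2 := (hS j).1 p' hj
        rw [h1.1, h1.2, h2.1, h2.2, hinj.eq_iff, hinj.eq_iff]
        exact (hpat p p').1
    · funext i j
      refine propext ?_
      show (padg G N).Adj (S i) (S j) ↔ (padg H N).Adj (S' i) (S' j)
      rcases hi : a i with _ | p
      · have h1 := (hS i).2 hi
        refine iff_of_false (fun ⟨h, _⟩ => h1.1 h) (fun ⟨h, _⟩ => h1.1 ?_)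
        rw [← h1.2]
        exact h
      rcases hj : a j with _ | p'
      · have h1 := (hS j).2 hj
        refine iff_of_false (fun ⟨_, h, _⟩ => h1.1 h) (fun ⟨_, h, _⟩ => h1.1 ?_)
        rw [← h1.2]
        exact h
      have h1 := (hS i).1 p hi
      have h2 := (hS j).1 p' hj
      rw [h1.1, h1.2, h2.1, h2.2, padg_adj, padg_adj]
      constructor
      · rintro ⟨_, _, h⟩
        exact ⟨(T' p).isLt, (T' p').isLt, (hpat p p').2.1 h⟩
      · rintro ⟨_, _, h⟩
        exact ⟨(T p).isLt, (T p').isLt, (hpat p p').2.2 h⟩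

end pad

theorem size_bound (n : ℕ) : size n ≤ 6553601 * (n + 1) ^ 10 := by
  have h1 : (2 * n + 4) ^ 8 ≤ 65536 * (n + 1) ^ 8 := by
    calc (2 * n + 4) ^ 8 ≤ (4 * (n + 1)) ^ 8 := Nat.pow_le_pow_left (by omega) 8
      _ = 65536 * (n + 1) ^ 8 := by ring
  have h2 : n * (n + 2) ≤ (n + 1) ^ 2 := by nlinarith
  have h3 : n ≤ (n + 1) ^ 10 := by
    calc n ≤ n + 1 := by omega
      _ ≤ (n + 1) ^ 10 := Nat.le_self_pow (by norm_num) _
  unfold size hgt
  calc n + 100 * (2 * n + 4) ^ 8 * (n * (n + 2))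
      ≤ (n + 1) ^ 10 + 100 * (65536 * (n + 1) ^ 8) * (n + 1) ^ 2 := by gcongr
    _ = 6553601 * (n + 1) ^ 10 := by ring

/-- The Weisfeiler-Leman method of dimension `k` does not identify padded webs with at most
`c (k (log₂ k + 1)) ^ (10 q)` vertices. -/
theorem wq_lower (q : ℕ) (hq : 1 ≤ q) : ∃ c : ℕ, ∀ k : ℕ, 1 ≤ k →
    ∃ (n : ℕ) (G H : SimpleGraph (Fin n)), ¬ Nonempty (WQ q n G ≃g WQ q n H) ∧
      WLEquivalent k (WQ q n G) (WQ q n H) ∧
      size n ^ q ≤ c * (k * (Nat.log 2 k + 1)) ^ (10 * q) := by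
  refine ⟨(6553601 * 3779145 ^ 10) ^ q, fun k hk => ?_⟩
  obtain ⟨X, hX, P, Q, hne, ⟨A⟩, hxy, hcard⟩ := Pool.Agent.H129.UB.exists_base (2 * k + 1) (by omega)
  set n := Fintype.card X with hn
  let e := (Fintype.equivFin X).symm
  let G : SimpleGraph (Fin n) := P.comap e
  let H : SimpleGraph (Fin n) := Q.comap e
  let iG : G ≃g P := SimpleGraph.Iso.comap e P
  let iH : H ≃g Q := SimpleGraph.Iso.comap e Q
  refine ⟨n, G, H, ?_, ?_, ?_⟩
  · rw [WQ_iso_iff hq]
    rintro ⟨φ⟩
    exact hne.false ((iG.symm.trans φ).trans iH)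
  · exact (padGame (gameIso (webGame le_rfl (gameIso A iG iH) (hgt n)) (WWiso n G) (WWiso n H))
      (size_le_pow hq n)).wlEquivalent
  · have h1 : Nat.log 2 (2 * k + 1) ≤ Nat.log 2 k + 2 := by
      calc Nat.log 2 (2 * k + 1) ≤ Nat.log 2 (k * 2 * 2) := Nat.log_mono_right (by omega)
        _ = Nat.log 2 k + 2 := by
          rw [Nat.log_mul_base (by norm_num) (by omega), Nat.log_mul_base (by norm_num) (by omega)]
    have h2 : n + 1 ≤ 3779145 * (k * (Nat.log 2 k + 1)) := by
      have h3 : (2 * k + 1) * (Nat.log 2 (2 * k + 1) + 1) ≤ (3 * k) * (3 * (Nat.log 2 k + 1)) :=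
        Nat.mul_le_mul (by omega) (by omega)
      have h4 : 1 * 1 ≤ k * (Nat.log 2 k + 1) := Nat.mul_le_mul hk (by omega)
      have h5 : (3 * k) * (3 * (Nat.log 2 k + 1)) = 9 * (k * (Nat.log 2 k + 1)) := by ring
      omega
    calc size n ^ q ≤ (6553601 * (3779145 * (k * (Nat.log 2 k + 1))) ^ 10) ^ q := by
          refine Nat.pow_le_pow_left ((size_bound n).trans ?_) q
          exact Nat.mul_le_mul_left _ (Nat.pow_le_pow_left h2 10)
      _ = _ := by rw [mul_pow 3779145, ← mul_assoc, mul_pow _ _ q, ← pow_mul]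

end Pool.Agent.H43.CB
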